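import Pool.Agent.N41.RM.NF
import Pool.Agent.N41.RM.Mult
import Pool.Agent.W174.HF.NF1

/-!
# The Riemann hypothesis for `L(E, s)` on horizontal lines, from sums over primes

Let `E : y² = x³ + a x + b` be an elliptic curve over `ℚ` and `L(E, s) = ∏_p ∏_j (1 - α_j(p) p^(-s))⁻¹`.
For `γ > π/2`, every complex number `s` and `T > 0` the sum over the primes and their powers

`V(s,T) = ∑_p ∑_{k ≥ 1} (α_1(p)^k + α_2(p)^k) cos(Im s · k log p) / (k p^{k Re s})
            · exp(iγ k log p / T) / Γ(1 + k log p / T)`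

converges absolutely.  We prove, for EVERY complex number `s` and without any hypothesis on zeros,

`V(s,T) = -m (log T - Λ_γ) + log |L^(m)(E, s) / m!| - π i N(s) + O(1/T)`,

where `m` is the multiplicity of `s` as a zero of `L(E, s)` and `N(s)` is the number of the zeros on the
open horizontal half line to the right of `s`.  So the position of the zeros on each horizontal line can
be read off from the values of `V` at a single point of this line, and the Riemann hypothesis for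
`L(E, s)` is equivalent to a condition on `V(1 + it, T)` for each single real number `t`, where
the other real numbers `t` do not interfere.

Proof: the function is the product of `L(E, s + w)` and `L(E, conj s + w)`, a Dirichlet series with real
coefficients in `w`, to which the rotated mean of the starting modules `Pool.Agent.W187.UR`,
`Pool.Agent.W189` at the origin is applied (`Pool.Agent.N41.RM`).
-/

set_option autoImplicit false

open Complex Filter Topology UpperHalfPlane MatrixGroups CongruenceSubgroup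

namespace Pool.Agent.Results.MP_553913_nt.HorizontalLines

/-- The coefficient `a_p` of `E : y² = x³ + a x + b` at a prime `p ∤ 2 (4a³ + 27b²)`: `p` minus the
number of pairs `(x, y)` modulo `p` with `y² ≡ x³ + a x + b (mod p)`. -/
noncomputable def ap (a b : ℤ) (p : ℕ) : ℤ :=
  (p : ℤ) - (((Finset.range p ×ˢ Finset.range p).filter
    (fun xy : ℕ × ℕ => (p : ℤ) ∣ (xy.2 : ℤ) ^ 2 -
      ((xy.1 : ℤ) ^ 3 + a * (xy.1 : ℤ) + b))).card : ℤ)

/-- The `n`-th Fourier coefficient of `f`. -/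
noncomputable def coef {N : ℕ} (f : CuspForm (Gamma0 N : Subgroup (GL (Fin 2) ℝ)) 2) (n : ℕ) : ℂ :=
  (qExpansion 1 f).coeff n

/-- `f ∈ S_2(Γ₀(N))` is the newform of the elliptic curve `E : y² = x³ + a x + b` of conductor `N` and
root number `w`: the Fourier coefficients `c(n)` of `f` are real with `c(1) = 1`, they satisfy the
Hecke relations `c(mn) = c(m) c(n)` for coprime `m`, `n` and `c(p^(j+2)) = c(p) c(p^(j+1)) - p c(p^j)`
(without the last term if `p ∣ N`), `f(-1/(Nτ)) = -w N τ² f(τ)`, `c(p) = a_p(E)` for all primes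
`p ∤ 2 (4a³ + 27b²)`, `|c(p)| ≤ 2 √p` for all `p ∤ N` (Hasse) and `c(p) = 0, 1, -1` for `p ∣ N`.
By the modularity theorem (Wiles, Taylor-Wiles, Breuil-Conrad-Diamond-Taylor) it exists for every `E`. -/
structure IsFormOf (a b : ℤ) (N : ℕ) (f : CuspForm (Gamma0 N : Subgroup (GL (Fin 2) ℝ)) 2) (w : ℝ) :
    Prop where
  one : coef f 1 = 1
  real : ∀ n, (coef f n).im = 0
  mul : ∀ m n : ℕ, Nat.Coprime m n → coef f (m * n) = coef f m * coef f n
  pow : ∀ p j : ℕ, p.Prime → coef f (p ^ (j + 2)) = coef f p * coef f (p ^ (j + 1)) -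
      (if p ∣ N then 0 else (p : ℂ) * coef f (p ^ j))
  sign : w = 1 ∨ w = -1
  fricke : ∀ τ τ' : ℍ, (τ' : ℂ) * ((N : ℂ) * (τ : ℂ)) = -1 →
    f τ' = -(w : ℂ) * (N : ℂ) * (τ : ℂ) ^ 2 * f τ
  points : ∀ p : ℕ, p.Prime → ¬ (p : ℤ) ∣ 2 * (4 * a ^ 3 + 27 * b ^ 2) → coef f p = (ap a b p : ℂ)
  good : ∀ p : ℕ, p.Prime → ¬ p ∣ N → ‖coef f p‖ ≤ 2 * Real.sqrt p
  bad : ∀ p : ℕ, p.Prime → p ∣ N → coef f p = 0 ∨ coef f p = 1 ∨ coef f p = -1

/-- `Λ` is the completed L-function of `f`: it is entire and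
`Λ(s) = N^(s/2) (2π)^(-s) Γ(s) ∑ c(n) n^(-s)` for `Re s > 2`. -/
def IsCompleted {N : ℕ} (f : CuspForm (Gamma0 N : Subgroup (GL (Fin 2) ℝ)) 2) (Λ : ℂ → ℂ) : Prop :=
  Differentiable ℂ Λ ∧ ∀ s : ℂ, 2 < s.re →
    Λ s = ((Real.sqrt N / (2 * Real.pi) : ℝ) : ℂ) ^ s * Complex.Gamma s *
      ∑' n : ℕ, coef f (n + 1) * ((n + 1 : ℕ) : ℂ) ^ (-s)

/-- The L-function with the completion `Λ`: `L(s) = Λ(s) N^(-s/2) (2π)^s Γ(s)⁻¹`. -/
noncomputable def Lfun (N : ℕ) (Λ : ℂ → ℂ) (s : ℂ) : ℂ :=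
  Λ s * (((Real.sqrt N / (2 * Real.pi) : ℝ) : ℂ) ^ s)⁻¹ * (Complex.Gamma s)⁻¹

/-- The multiplicity of `s` as a zero of `F`: the least `m` such that the `m`-th derivative of `F` at
`s` is not zero (`0` if `F s ≠ 0`). -/
noncomputable def mult (F : ℂ → ℂ) (s : ℂ) : ℕ := sInf {m : ℕ | iteratedDeriv m F s ≠ 0}

/-- The number of the zeros of `F` on the open horizontal half line `{σ + i Im s : σ > Re s}` to the
right of `s`, counted with multiplicity. -/
noncomputable def zerosRight (F : ℂ → ℂ) (s : ℂ) : ℤ :=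
  ∑ᶠ σ ∈ Set.Ioi s.re, (analyticOrderNatAt F (σ + s.im * Complex.I) : ℤ)

/-- `α_1(p)^k + α_2(p)^k`, in terms of the coefficients: `c(p^k) - p c(p^(k-2))`, without the last term
if `k = 1` or `p ∣ N`. -/
noncomputable def powerSum {N : ℕ} (f : CuspForm (Gamma0 N : Subgroup (GL (Fin 2) ℝ)) 2) (p k : ℕ) :
    ℂ :=
  coef f (p ^ k) - if p ∣ N ∨ k < 2 then 0 else (p : ℂ) * coef f (p ^ (k - 2))

/-- The term of `V(s,T)` for the prime `p = x.1` and the exponent `k = x.2 + 1`. -/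
noncomputable def term {N : ℕ} (f : CuspForm (Gamma0 N : Subgroup (GL (Fin 2) ℝ)) 2) (γ : ℝ) (s : ℂ)
    (T : ℝ) (x : Nat.Primes × ℕ) : ℂ :=
  (((powerSum f x.1 (x.2 + 1)).re / ((x.2 + 1) * (x.1 : ℝ) ^ (s.re * (x.2 + 1))) *
    Real.cos (s.im * ((x.2 + 1) * Real.log x.1)) : ℝ) : ℂ) *
    (cexp ((γ * ((x.2 + 1) * Real.log x.1 / T) : ℝ) * Complex.I) /
      (Real.Gamma (1 + (x.2 + 1) * Real.log x.1 / T) : ℂ))

/-- `V(s,T)` -/
noncomputable def V {N : ℕ} (f : CuspForm (Gamma0 N : Subgroup (GL (Fin 2) ℝ)) 2) (γ : ℝ) (s : ℂ)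
    (T : ℝ) : ℂ := ∑' x : Nat.Primes × ℕ, term f γ s T x

/-- `Λ_γ = ∫_0^∞ (e^{-u} - e^{iγu} / Γ(1 + u)) du / u`. -/
noncomputable def Lam (γ : ℝ) : ℂ := ∫ u in Set.Ioi (0 : ℝ),
  (cexp (-(u : ℂ)) - cexp ((γ * u : ℝ) * Complex.I) * ((Real.Gamma (1 + u))⁻¹ : ℝ)) / u

/-- The law at the point `s`, for the L-function `L`. -/
def Law {N : ℕ} (f : CuspForm (Gamma0 N : Subgroup (GL (Fin 2) ℝ)) 2) (γ : ℝ) (L : ℂ → ℂ) (s : ℂ) :
    Prop :=
  iteratedDeriv (mult L s) L s ≠ 0 ∧
    (fun T : ℝ => V f γ s T - (-(mult L s) * (Real.log T - Lam γ) +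
      Real.log (‖iteratedDeriv (mult L s) L s‖ / (mult L s).factorial) -
      Real.pi * zerosRight L s * Complex.I)) =O[atTop] (fun T : ℝ => 1 / T)

variable {N : ℕ} {f : CuspForm (Gamma0 N : Subgroup (GL (Fin 2) ℝ)) 2} {w : ℝ}

theorem form {a b : ℤ} (hf : IsFormOf a b N f w) : Pool.Agent.W169.HF.IsForm N f w :=
  { one := hf.one
    real := hf.real
    mul := hf.mul
    pow := hf.pow
    sign := hf.sign
    fricke := hf.fricke
    good := hf.good
    bad := fun p hp hpN => by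
      have h1 : (1 : ℝ) ≤ Real.sqrt p := by
        rw [Real.one_le_sqrt]
        exact_mod_cast hp.one_le
      have h2 : ‖coef f p‖ ≤ 1 := by
        rcases hf.bad p hp hpN with h | h | h <;> simp [h]
      exact h2.trans h1 }

theorem order_nat {F : ℂ → ℂ} (hF : Differentiable ℂ F) {s : ℂ} :
    (meromorphicOrderAt F s).untop₀ = (analyticOrderNatAt F s : ℤ) := by
  rw [(hF.analyticAt s).meromorphicOrderAt_eq]
  unfold analyticOrderNatAt
  rcases h : analyticOrderAt F s with _ | n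
  · rfl
  · rfl

theorem rayN_eq {F : ℂ → ℂ} (hF : Differentiable ℂ F) (s : ℂ) :
    Pool.Agent.N41.RM.rayN F s.re s.im = zerosRight F s := by
  unfold Pool.Agent.N41.RM.rayN zerosRight
  exact finsum_congr fun σ => finsum_congr fun _ => order_nat hF

theorem nat_eq_zero {F : ℂ → ℂ} (hF : Differentiable ℂ F) {s : ℂ}
    (h : meromorphicOrderAt F s ≠ ⊤) : (meromorphicOrderAt F s).untop₀ = 0 ↔ F s ≠ 0 := by
  have ha := hF.analyticAt s
  have h1 : analyticOrderAt F s ≠ ⊤ := by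
    intro h2
    apply h
    rw [ha.meromorphicOrderAt_eq, h2]
    rfl
  rw [order_nat hF, ← ha.analyticOrderAt_eq_zero, ← Nat.cast_analyticOrderNatAt h1]
  norm_cast

theorem unique {Λ Λ' : ℂ → ℂ} (h : IsCompleted f Λ) (h' : IsCompleted f Λ') : Λ = Λ' := by
  have hev : Λ =ᶠ[𝓝 (3 : ℂ)] Λ' := by
    have hopen : IsOpen {s : ℂ | 2 < s.re} := isOpen_lt continuous_const Complex.continuous_re
    filter_upwards [hopen.mem_nhds (show (3 : ℂ) ∈ {s : ℂ | 2 < s.re} by simp; norm_num)] with s hs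
    rw [h.2 s hs, h'.2 s hs]
  exact AnalyticOnNhd.eq_of_eventuallyEq (fun z _ => h.1.analyticAt z)
    (fun z _ => h'.1.analyticAt z) hev

variable [NeZero N]

/-- the law at every point, in the form needed below -/
theorem law (hf : Pool.Agent.W169.HF.IsForm N f w) {Λ : ℂ → ℂ} (hΛ : IsCompleted f Λ) {γ : ℝ}
    (hγ : Real.pi / 2 < γ) (s : ℂ) : Law f γ (Lfun N Λ) s := by
  obtain ⟨-, n, l, h1, h2, h3, h4⟩ := Pool.Agent.N41.RM.nf_off hf hΛ hγ s
  have hd : Differentiable ℂ (Lfun N Λ) := Pool.Agent.N41.RM.lfun_diff hΛ.1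
  obtain ⟨h5, h6, h7⟩ := Pool.Agent.N41.RM.mul0_spec (hd.analyticAt s) h1 h2
  refine ⟨h7, h4.congr_left fun T => ?_⟩
  have h8 : ‖iteratedDeriv (mult (Lfun N Λ) s) (Lfun N Λ) s‖ / (mult (Lfun N Λ) s).factorial =
      ‖l‖ := by
    rw [← h6, norm_div, Complex.norm_natCast]
    rfl
  have h9 : Pool.Agent.N41.RM.rayN (Pool.Agent.N41.RM.LfunOf N Λ) s.re s.im =
      zerosRight (Lfun N Λ) s := rayN_eq hd s
  have h10 : (n : ℂ) = (mult (Lfun N Λ) s : ℂ) := by
    rw [h5]
    push_cast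
    rfl
  rw [h8, h9, h10]
  rfl

omit [NeZero N] in
/-- the law in the form of the abstract lemmas -/
theorem law' {L : ℂ → ℂ} {γ : ℝ} {s : ℂ} (h : Law f γ L s) :
    (fun T : ℝ => V f γ s T - (((-(mult L s : ℤ) : ℤ) : ℂ) * (Real.log T - Lam γ) +
      (Real.log (‖iteratedDeriv (mult L s) L s‖ / (mult L s).factorial) -
      Real.pi * zerosRight L s * Complex.I))) =O[atTop] (fun T : ℝ => 1 / T) := by
  refine h.2.congr_left fun T => ?_
  push_cast
  ring

/-- **Main theorem.**  Let `E : y² = x³ + a x + b` be an elliptic curve over `ℚ`, `f` its newform, and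
`γ > π/2`.  Let `L = L(E, ·)`.

* `V(s,T)` converges absolutely for all complex `s` and `T > 0`.
* For every complex `s`, with the multiplicity `m` of `s` as a zero of `L` and the number `N(s)` of the
  zeros of `L` on the open horizontal half line to the right of `s`,
  `V(s,T) = -m (log T - Λ_γ) + log |L^(m)(s) / m!| - π i N(s) + O(1/T)` as `T → ∞`.
* The Riemann hypothesis for `L(E, s)` is equivalent to each of the following statements:
  `Im V(1 + it, T) + Im Λ_γ · Re V(1 + it, T) / log T → 0` as `T → ∞`, for every real `t`;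
  for every real `t` the same along one sequence `T_k → ∞`;
  `V(s,T) → log |L(s)|` for every `s` with `Re s > 1`. -/
theorem result (a b : ℤ) (N : ℕ) [NeZero N] (f : CuspForm (Gamma0 N : Subgroup (GL (Fin 2) ℝ)) 2)
    (w : ℝ) (_ : 4 * a ^ 3 + 27 * b ^ 2 ≠ 0) (hf : IsFormOf a b N f w) (γ : ℝ)
    (hγ : Real.pi / 2 < γ) :
    ∃ Λ : ℂ → ℂ, IsCompleted f Λ ∧ (∀ Λ', IsCompleted f Λ' → Λ' = Λ) ∧
      Differentiable ℂ (Lfun N Λ) ∧
      (∀ s : ℂ, 2 < s.re → Lfun N Λ s = ∑' n : ℕ, coef f (n + 1) * ((n + 1 : ℕ) : ℂ) ^ (-s)) ∧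
      (∀ (s : ℂ) (T : ℝ), 0 < T → Summable fun x => ‖term f γ s T x‖) ∧
      (∀ s : ℂ, Law f γ (Lfun N Λ) s) ∧
      List.TFAE [
        ∀ s : ℂ, Λ s = 0 → s.re = 1,
        ∀ t : ℝ, Tendsto (fun T : ℝ => (V f γ (1 + t * Complex.I) T).im +
          (Lam γ).im * ((V f γ (1 + t * Complex.I) T).re / Real.log T)) atTop (𝓝 0),
        ∀ t : ℝ, ∃ τ : ℕ → ℝ, Tendsto τ atTop atTop ∧
          Tendsto (fun k => (V f γ (1 + t * Complex.I) (τ k)).im +
            (Lam γ).im * ((V f γ (1 + t * Complex.I) (τ k)).re / Real.log (τ k))) atTop (𝓝 0),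
        ∀ s : ℂ, 1 < s.re → Tendsto (fun T : ℝ => V f γ s T) atTop
          (𝓝 (Real.log ‖Lfun N Λ s‖))] := by
  have hf' := form hf
  obtain ⟨Λ, hΛ, hfe, -, -⟩ := Pool.Agent.W174.HF.nf1 N f w hf'
  have hΛ' : IsCompleted f Λ := hΛ
  have hd : Differentiable ℂ (Lfun N Λ) := Pool.Agent.N41.RM.lfun_diff hΛ.1
  obtain ⟨A, lam, c, hD'⟩ := Pool.Agent.N41.RM.nf_ds hf' hΛ
  have hD : Pool.Agent.N41.RM.DS A lam c (Lfun N Λ) := hD'
  have hlaw : ∀ s, Law f γ (Lfun N Λ) s := fun s => law hf' hΛ' hγ s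
  have hw0 : (w : ℂ) ≠ 0 := by
    rcases hf.sign with h | h <;> rw [h] <;> norm_num
  -- zeros of `Λ` and of `L`
  have hz : ∀ s : ℂ, 0 < s.re → (Lfun N Λ s = 0 ↔ Λ s = 0) := by
    intro s hs
    have h := Pool.Agent.N41.RM.base_ne (N := N)
    have h1 : ((Real.sqrt N / (2 * Real.pi) : ℝ) : ℂ) ^ s ≠ 0 := by
      rw [Complex.cpow_def_of_ne_zero h]
      exact Complex.exp_ne_zero _
    have h2 : Complex.Gamma s ≠ 0 := Complex.Gamma_ne_zero_of_re_pos hs
    unfold Lfun
    rw [mul_eq_zero, mul_eq_zero]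
    have h3 := inv_ne_zero h1
    have h4 := inv_ne_zero h2
    tauto
  have hray : ∀ s : ℂ, zerosRight (Lfun N Λ) s = 0 ↔
      ∀ σ : ℝ, s.re < σ → Lfun N Λ (σ + s.im * Complex.I) ≠ 0 := by
    intro s
    rw [← rayN_eq hd, hD.rayN_eq_zero_iff s.re s.im (fun σ _ => by
      show 0 ≤ (meromorphicOrderAt (Lfun N Λ) _).untop₀
      rw [order_nat hd]; positivity)]
    refine forall_congr' fun σ => imp_congr_right fun _ => ?_
    exact nat_eq_zero hd (hD.ne_top _)
  have hRH : (∀ s : ℂ, Λ s = 0 → s.re = 1) ↔ ∀ s : ℂ, 1 < s.re → Lfun N Λ s ≠ 0 := by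
    constructor
    · intro h s hs h0
      have := h s ((hz s (by linarith)).1 h0)
      linarith
    · intro h s hs
      by_contra hne
      rcases lt_or_gt_of_ne hne with h1 | h1
      · have h2 : Λ (2 - s) = 0 := by rw [hfe, hs, mul_zero]
        have h3 : 1 < (2 - s).re := by
          rw [Complex.sub_re]
          show 1 < 2 - s.re
          linarith
        exact h _ h3 ((hz _ (by linarith)).2 h2)
      · exact h s h1 ((hz s (by linarith)).2 hs)
  have hre : ∀ t : ℝ, ((1 : ℂ) + t * Complex.I).re = 1 := fun t => by simp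
  have him : ∀ t : ℝ, ((1 : ℂ) + t * Complex.I).im = t := fun t => by simp
  have hRH2 : (∀ s : ℂ, Λ s = 0 → s.re = 1) ↔
      ∀ t : ℝ, zerosRight (Lfun N Λ) (1 + t * Complex.I) = 0 := by
    rw [hRH]
    constructor
    · intro h t
      rw [hray, hre, him]
      intro σ hσ
      exact h _ (by simpa using hσ)
    · intro h s hs
      have h1 := (hray _).1 (h s.im)
      rw [hre, him] at h1
      have h2 := h1 s.re hs
      rwa [Complex.re_add_im] at h2
  have hlim : ∀ t : ℝ, Tendsto (fun T : ℝ => (V f γ (1 + t * Complex.I) T).im +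
      (Lam γ).im * ((V f γ (1 + t * Complex.I) T).re / Real.log T)) atTop
        (𝓝 (-(Real.pi * zerosRight (Lfun N Λ) (1 + t * Complex.I)))) := by
    intro t
    have h1 := Pool.Agent.N41.RM.im_of_law (law' (hlaw (1 + t * Complex.I)))
    have h2 : ∀ (x : ℝ) (n : ℤ), ((x : ℂ) - Real.pi * n * Complex.I).im = -(Real.pi * n) := by
      intro x n
      simp
    rw [h2] at h1
    exact h1
  have hseq : Tendsto (fun k : ℕ => (k : ℝ)) atTop atTop := tendsto_natCast_atTop_atTop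
  refine ⟨Λ, hΛ, fun Λ' h' => unique h' hΛ', hd,
    fun s hs => Pool.Agent.N41.RM.lfun_eq hΛ hs,
    fun s T hT => (Pool.Agent.N41.RM.nf_off hf' hΛ hγ s).1 T hT, hlaw, ?_⟩
  tfae_have 1 → 2 := by
    intro h t
    have h1 := hlim t
    rw [hRH2.1 h t] at h1
    simpa using h1
  tfae_have 2 → 3 := fun h t => ⟨fun k => k, hseq, (h t).comp hseq⟩
  tfae_have 3 → 1 := by
    intro h
    rw [hRH2]
    intro t
    obtain ⟨τ, hτ, h1⟩ := h t
    have h2 := tendsto_nhds_unique h1 ((hlim t).comp hτ)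
    have h3 : Real.pi * (zerosRight (Lfun N Λ) (1 + t * Complex.I) : ℝ) = 0 := by linarith
    have h4 := (mul_eq_zero.1 h3).resolve_left Real.pi_ne_zero
    exact_mod_cast h4
  tfae_have 1 → 4 := by
    intro h s hs
    have hno := hRH.1 h
    have h0 : mult (Lfun N Λ) s = 0 :=
      (Pool.Agent.N41.RM.mul0_eq_zero_iff (hlaw s).1).2 (hno s hs)
    have h1 : zerosRight (Lfun N Λ) s = 0 := (hray s).2 fun σ hσ => hno _ (by
      simp only [Complex.add_re, Complex.ofReal_re, Complex.mul_re, Complex.I_re, mul_zero,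
        Complex.ofReal_im, Complex.I_im, mul_one, sub_self, add_zero]
      linarith)
    have h2 := Pool.Agent.N41.RM.tendsto_of_law (law' (hlaw s))
    rw [h1, h0] at h2
    have h3 := h2.add_const (Real.log ‖Lfun N Λ s‖ : ℂ)
    rw [zero_add] at h3
    refine h3.congr fun T => ?_
    rw [iteratedDeriv_zero]
    simp
  tfae_have 4 → 1 := by
    intro h
    rw [hRH]
    intro s hs
    rw [← Pool.Agent.N41.RM.mul0_eq_zero_iff (hlaw s).1]
    have h1 := Pool.Agent.N41.RM.re_of_law (law' (hlaw s))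
    have h2 := ((Complex.continuous_re.tendsto _).comp (h s hs)).div_atTop
      Real.tendsto_log_atTop
    have h3 := tendsto_nhds_unique h1 h2
    have h4 : (mult (Lfun N Λ) s : ℝ) = 0 := by
      push_cast at h3
      linarith
    exact_mod_cast h4
  tfae_finish

end Pool.Agent.Results.MP_553913_nt.HorizontalLines
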