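import Pool.Agent.N41.RM.Bad

/-!
# Beilinson's conjecture on ranks and orders: the order from the numbers of points

`X` is a smooth projective variety of dimension `2i + 1` over a number field `K` such that the
cohomology of `X` outside the middle degree is spanned by algebraic classes defined over `K`, for
example any smooth complete intersection of dimension `2i + 1` (a curve if `i = 0`), or a
blow-up of a projective space in such varieties of smaller dimension.  Let `k_{v,e}` be the extension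
of degree `e` of the residue field of the prime `v`, let `S` be a finite set of primes that contains
the primes of bad reduction and let `b_j` be the Betti number of degree `2j`.  We assume only that
`L(H^{2i+1}(X), s)` has a continuation along the real segment `[i+1, i+3/2]`, meromorphic at its
points.  For `γ > π/2` the series

`W_γ(T) = ∑_{v ∉ S} ∑_{e ≥ 1} (#X(k_{v,e}) - ∑_{j=0}^{2i+1} b_j q_v^{je}) / (e q_v^{(i+1)e}) ·`
`         exp(iγ e log q_v / T) / Γ(1 + e log q_v / T)`

converges absolutely and, without any hypothesis on zeros,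

`W_γ(T) = r (log T - Λ_γ) - log |l| + π z i + O(1/T)`,

where `r` is the order of the L-function at the centre `i + 1`, `l` the leading coefficient of the
L-function without its Euler factors at `S` and `z` the number of its real zeros minus the number of
its real poles `> i + 1`.  Hence, for every integer `ρ` (as the rank of `CH^{i+1}(X)_0`), the equality
`ord_{s=i+1} L(H^{2i+1}(X), s) = ρ` is equivalent to `Re W_γ(T) / log T → ρ` and to
`Re W_γ(T_k) / log T_k → ρ` for one sequence `T_k → ∞`.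
-/

set_option autoImplicit false

open scoped Classical

namespace Pool.Agent.Results.MP_6dc9d1_nt.OrderFromPointCounts

open NumberField IsDedekindDomain Filter Topology
open Pool.Agent.TH958.BV (cone)

section defs

variable {K : Type} [Field K] [NumberField K] {n N : ℕ}

/-- `α_1, …, α_N` are the eigenvalues of the geometric Frobenius at the prime `v` on `H^{2i+1}(X)`, and the
other cohomology of the variety `X` of dimension `2i + 1` consists of algebraic classes, `b_j` of
degree `2j`, `j = 0, …, 2i + 1`: the numbers `α_j` have absolute value `q_v^{i+1/2}`, and for every finite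
extension `κ` of the residue field of `v`, of degree `e`, the number of the points of `X` with
coordinates in `κ` is `∑ b_j q_v^{je} - ∑ α_j^e`.  (`cone` is the number of the nonzero solutions of
the homogeneous equations, which is `#κ - 1` times the number of points.) -/
def IsFrobenius (X : Set (MvPolynomial (Fin n) (𝓞 K))) (i : ℕ) (b : ℕ → ℕ)
    (v : HeightOneSpectrum (𝓞 K)) (α : Fin N → ℂ) : Prop :=
  (∀ j, ‖α j‖ = (Ideal.absNorm v.asIdeal : ℝ) ^ ((i : ℝ) + 1 / 2)) ∧
    ∀ (κ : Type) [Field κ] [Finite κ] (φ : 𝓞 K →+* κ) (e : ℕ), RingHom.ker φ = v.asIdeal →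
      Nat.card κ = Ideal.absNorm v.asIdeal ^ e →
      (cone X φ : ℂ) = ((Ideal.absNorm v.asIdeal : ℂ) ^ e - 1) *
        (∑ j ∈ Finset.range (2 * i + 2), (b j : ℂ) * (Ideal.absNorm v.asIdeal : ℂ) ^ (j * e) -
          ∑ j, α j ^ e)

/-- `α_{v,1}, …, α_{v,N}` are the parameters of the Euler factors of `L(H^{2i+1}(X), s)`: outside the finite
set `S` of primes they are the eigenvalues of Frobenius, and at the primes in `S` any numbers of
absolute value at most `q_v^{i+1/2}` such that the Euler factor has real coefficients (the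
eigenvalues of Frobenius on the inertia invariants, completed by zeros). -/
def IsParameter (X : Set (MvPolynomial (Fin n) (𝓞 K))) (i : ℕ) (b : ℕ → ℕ)
    (S : Finset (HeightOneSpectrum (𝓞 K))) (α : HeightOneSpectrum (𝓞 K) → Fin N → ℂ) : Prop :=
  (∀ v ∉ S, IsFrobenius X i b v (α v)) ∧
    ∀ v ∈ S, (∀ j, ‖α v j‖ ≤ (Ideal.absNorm v.asIdeal : ℝ) ^ ((i : ℝ) + 1 / 2)) ∧
      ∃ P : Polynomial ℝ, P.map (algebraMap ℝ ℂ) = ∏ j, (Polynomial.X - Polynomial.C (α v j))

/-- The L-function `∏_v ∏_j (1 - α_{v,j} q_v^{-s})⁻¹`. -/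
noncomputable def LFun (α : HeightOneSpectrum (𝓞 K) → Fin N → ℂ) (s : ℂ) : ℂ :=
  ∏' v : HeightOneSpectrum (𝓞 K), ∏ j, (1 - α v j * (Ideal.absNorm v.asIdeal : ℂ) ^ (-s))⁻¹

/-- `F` is a continuation of the L-function from `Re s > i + 3/2` along the real axis to `s = i + 1`,
meromorphic at all points of the segment `[i + 1, i + 3/2]`. -/
def IsContinuation (i : ℕ) (α : HeightOneSpectrum (𝓞 K) → Fin N → ℂ) (F : ℂ → ℂ) : Prop :=
  (∀ x : ℝ, (i : ℝ) + 1 ≤ x → x ≤ (i : ℝ) + 3 / 2 → MeromorphicAt F (x : ℂ)) ∧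
    ∀ s : ℂ, (i : ℝ) + 3 / 2 < s.re → F s = LFun α s

/-- The residue field of the prime `v`. -/
noncomputable instance residueField (v : HeightOneSpectrum (𝓞 K)) : Field (𝓞 K ⧸ v.asIdeal) :=
  Pool.Agent.R409.RA.fieldQuot v

/-- The number of the points of the projective scheme defined by `X` with coordinates in the extension
of degree `e` of the residue field of `v`: the number of the nonzero solutions `u` of the homogeneous
equations in the algebraic closure of the residue field with `u_j^{q_v^e} = u_j` for all `j`, divided by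
`q_v^e - 1`. -/
noncomputable def points (X : Set (MvPolynomial (Fin n) (𝓞 K))) (v : HeightOneSpectrum (𝓞 K))
    (e : ℕ) : ℝ :=
  (Nat.card {u : Fin n → AlgebraicClosure (𝓞 K ⧸ v.asIdeal) // u ≠ 0 ∧
    (∀ j, u j ^ (Ideal.absNorm v.asIdeal ^ e) = u j) ∧
    ∀ f ∈ X, MvPolynomial.eval₂ ((algebraMap (𝓞 K ⧸ v.asIdeal)
      (AlgebraicClosure (𝓞 K ⧸ v.asIdeal))).comp (Ideal.Quotient.mk v.asIdeal)) u f = 0} : ℝ) /
    ((Ideal.absNorm v.asIdeal : ℝ) ^ e - 1)

/-- The term of `W_γ(T)` for the prime `v = x.1` and the degree `e = x.2 + 1`, and `0` if `v ∈ S`. -/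
noncomputable def term (X : Set (MvPolynomial (Fin n) (𝓞 K))) (i : ℕ) (b : ℕ → ℕ)
    (S : Finset (HeightOneSpectrum (𝓞 K))) (γ T : ℝ) (x : HeightOneSpectrum (𝓞 K) × ℕ) : ℂ :=
  if x.1 ∈ S then 0 else
    ((points X x.1 (x.2 + 1) - ∑ j ∈ Finset.range (2 * i + 2),
        (b j : ℝ) * (Ideal.absNorm x.1.asIdeal : ℝ) ^ (j * (x.2 + 1))) /
      ((x.2 + 1) * (Ideal.absNorm x.1.asIdeal : ℝ) ^ ((i + 1) * (x.2 + 1))) : ℝ) *
    (Complex.exp ((γ * ((x.2 + 1) * Real.log (Ideal.absNorm x.1.asIdeal)) / T : ℝ) * Complex.I) /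
      (Real.Gamma (1 + (x.2 + 1) * Real.log (Ideal.absNorm x.1.asIdeal) / T) : ℂ))

/-- `W_γ(T)`. -/
noncomputable def W (X : Set (MvPolynomial (Fin n) (𝓞 K))) (i : ℕ) (b : ℕ → ℕ)
    (S : Finset (HeightOneSpectrum (𝓞 K))) (γ T : ℝ) : ℂ :=
  ∑' x : HeightOneSpectrum (𝓞 K) × ℕ, term X i b S γ T x

/-- `Λ_γ = ∫_0^∞ (e^{-t} - e^{iγt} / Γ(1 + t)) dt / t`. -/
noncomputable def Lam (γ : ℝ) : ℂ := ∫ t in Set.Ioi (0 : ℝ),
  (Complex.exp (-(t : ℂ)) - Complex.exp ((γ * t : ℝ) * Complex.I) * ((Real.Gamma (1 + t))⁻¹ : ℝ)) / t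

/-- The product of the inverses of the Euler factors at the primes in `S`. -/
noncomputable def badFactors (S : Finset (HeightOneSpectrum (𝓞 K)))
    (α : HeightOneSpectrum (𝓞 K) → Fin N → ℂ) (s : ℂ) : ℂ :=
  ∏ v ∈ S, ∏ j, (1 - α v j * (Ideal.absNorm v.asIdeal : ℂ) ^ (-s))

/-- The number of the real zeros `> i + 1` of `F` minus the number of its real poles `> i + 1`, with
multiplicities (they are in `(i + 1, i + 3/2]`). -/
noncomputable def excess (F : ℂ → ℂ) (i : ℕ) : ℤ :=
  ∑ᶠ σ ∈ Set.Ioi ((i : ℝ) + 1), (meromorphicOrderAt F (σ : ℂ)).untop₀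

end defs

section bridge

open Pool.Agent.N41.RM

variable {K : Type} [Field K] [NumberField K] {n N i : ℕ} {b : ℕ → ℕ}
  {X : Set (MvPolynomial (Fin n) (𝓞 K))} {S : Finset (HeightOneSpectrum (𝓞 K))}
  {α : HeightOneSpectrum (𝓞 K) → Fin N → ℂ}

theorem half_eq (i : ℕ) : (((2 * i + 1 : ℕ) : ℝ) / 2) = (i : ℝ) + 1 / 2 := by
  push_cast
  ring

theorem temp (hα : IsParameter X i b S α) (v : HeightOneSpectrum (𝓞 K)) (j : Fin N) :
    ‖α v j‖ ≤ (Ideal.absNorm v.asIdeal : ℝ) ^ (((2 * i + 1 : ℕ) : ℝ) / 2) := by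
  rw [half_eq]
  by_cases hv : v ∈ S
  · exact (hα.2 v hv).1 j
  · exact ((hα.1 v hv).1 j).le

theorem points_eq {v : HeightOneSpectrum (𝓞 K)} {β : Fin N → ℂ} (h : IsFrobenius X i b v β)
    {e : ℕ} (he : 1 ≤ e) : ((points X v e : ℝ) : ℂ) =
      ∑ j ∈ Finset.range (2 * i + 2), (b j : ℂ) * (Ideal.absNorm v.asIdeal : ℂ) ^ (j * e) -
          ∑ j, β j ^ e := by
  obtain ⟨κ, i1, i2, φ, h1, h2, h3⟩ := fcone_eq X v he
  have h4 := h.2 κ φ e h1 h2
  have hq : (2 : ℝ) ≤ Ideal.absNorm v.asIdeal := Pool.Agent.R409.RA.two_le v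
  have h5 : points X v e = (fcone X v e : ℝ) / ((Ideal.absNorm v.asIdeal : ℝ) ^ e - 1) := rfl
  have h6 : ((Ideal.absNorm v.asIdeal : ℂ) ^ e - 1) ≠ 0 := by
    have h7 : (1 : ℝ) < (Ideal.absNorm v.asIdeal : ℝ) ^ e :=
      one_lt_pow₀ (by linarith) (by omega)
    have h8 : ((Ideal.absNorm v.asIdeal : ℝ) ^ e - 1) ≠ 0 := by linarith
    exact_mod_cast h8
  rw [h5, h3]
  push_cast
  rw [h4]
  field_simp

theorem real (hα : IsParameter X i b S α) (v : HeightOneSpectrum (𝓞 K)) (k : ℕ) :
    (∑ j, α v j ^ (k + 1)).im = 0 := by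
  by_cases hv : v ∈ S
  · exact psum_real_of_stable (conj_stable (hα.2 v hv).2) _
  · have h1 := points_eq (hα.1 v hv) (e := k + 1) (by omega)
    have h2 : ∑ j, α v j ^ (k + 1) =
        (((∑ j ∈ Finset.range (2 * i + 2), (b j : ℝ) * (Ideal.absNorm v.asIdeal : ℝ) ^ (j * (k + 1)) -
          points X v (k + 1)) : ℝ) : ℂ) := by
      push_cast
      rw [h1]
      ring
    rw [h2, Complex.ofReal_im]

theorem temp_ext (hα : IsParameter X i b S α) (v : HeightOneSpectrum (𝓞 K)) (j : Fin N) :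
    ‖ext S α v j‖ ≤ (Ideal.absNorm v.asIdeal : ℝ) ^ (((2 * i + 1 : ℕ) : ℝ) / 2) := by
  unfold ext
  split_ifs with hv
  · rw [norm_zero]
    positivity
  · exact temp hα v j

theorem real_ext (hα : IsParameter X i b S α) (v : HeightOneSpectrum (𝓞 K)) (k : ℕ) :
    (∑ j, ext S α v j ^ (k + 1)).im = 0 := by
  unfold ext
  split_ifs with hv
  · simp
  · exact real hα v k

theorem term_eq (hα : IsParameter X i b S α) (γ T : ℝ) (x : HeightOneSpectrum (𝓞 K) × ℕ) :
    term X i b S γ T x = rterm qv (av (i + 1) (ext S α)) γ T x := by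
  have hq : (2 : ℝ) ≤ Ideal.absNorm x.1.asIdeal := Pool.Agent.R409.RA.two_le x.1
  have hq0 : (Ideal.absNorm x.1.asIdeal : ℂ) ≠ 0 := by
    have : (Ideal.absNorm x.1.asIdeal : ℝ) ≠ 0 := by linarith
    exact_mod_cast this
  unfold term rterm
  split_ifs with hv
  · have h1 : ∀ j, av (i + 1) (ext S α) x.1 j = 0 := by
      intro j
      unfold av ext
      rw [if_pos hv, zero_div]
    simp [h1]
  · have h1 : ∑ j, av (i + 1) (ext S α) x.1 j ^ (x.2 + 1) =
        (∑ j, α x.1 j ^ (x.2 + 1)) / (Ideal.absNorm x.1.asIdeal : ℂ) ^ ((i + 1) * (x.2 + 1)) := by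
      unfold av ext
      rw [Finset.sum_div]
      refine Finset.sum_congr rfl fun j _ => ?_
      rw [if_neg hv, div_pow, pow_mul]
    have h2 : fq qv x = (x.2 + 1) * Real.log (Ideal.absNorm x.1.asIdeal) := rfl
    have h3 := points_eq (hα.1 x.1 hv) (e := x.2 + 1) (by omega)
    rw [h1, h2, mul_div_assoc γ]
    push_cast
    rw [h3]
    have hk : (((x.2 : ℂ) + 1)) ≠ 0 := Nat.cast_add_one_ne_zero _
    field_simp
    ring

end bridge

/-- **The order at the centre from the numbers of points.**  Let `X` be the projective variety of dimension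
`2i + 1` over the number field `K` defined by homogeneous polynomials, with algebraic cohomology outside
the middle degree, `S` a finite set of primes which contains the primes of bad reduction, `α` the
parameters of `L(H^{2i+1}(X), s)`, `F` a continuation of this function along the segment
`[i + 1, i + 3/2]`, and `γ > π/2`.  Then

* `W_γ(T)` converges absolutely for `T > 0`;
* `F` has an order `r` at `i + 1`, the function without the Euler factors at `S` has there a real leading
  coefficient `l ≠ 0`, and `W_γ(T) = r (log T - Λ_γ) - log |l| + π z i + O(1/T)`;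
* for every integer `ρ` (as the rank of `CH^{i+1}(X)_0`) the assertions `ord_{s=i+1} F = ρ`,
  `Re W_γ(T) / log T → ρ` as `T → ∞`, and `Re W_γ(T_k) / log T_k → ρ` for one sequence `T_k → ∞`, are
  equivalent. -/
theorem result (K : Type) [Field K] [NumberField K] (n N i : ℕ) (b : ℕ → ℕ)
    (X : Set (MvPolynomial (Fin n) (𝓞 K))) (S : Finset (HeightOneSpectrum (𝓞 K)))
    (α : HeightOneSpectrum (𝓞 K) → Fin N → ℂ) (hα : IsParameter X i b S α) (F : ℂ → ℂ)
    (hF : IsContinuation i α F) (γ : ℝ) (hγ : Real.pi / 2 < γ) :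
    (∀ T : ℝ, 0 < T → Summable fun x => ‖term X i b S γ T x‖) ∧
    (∃ (r : ℤ) (l : ℝ), meromorphicOrderAt F ((i : ℂ) + 1) = r ∧
      meromorphicTrailingCoeffAt (fun s => F s * badFactors S α s) ((i : ℂ) + 1) = l ∧ l ≠ 0 ∧
      (fun T : ℝ => W X i b S γ T - (r * (Real.log T - Lam γ) - Real.log |l| +
        Real.pi * excess F i * Complex.I)) =O[atTop] (fun T : ℝ => 1 / T)) ∧
    ∀ ρ : ℤ, List.TFAE [
      meromorphicOrderAt F ((i : ℂ) + 1) = ρ,
      Tendsto (fun T : ℝ => (W X i b S γ T).re / Real.log T) atTop (𝓝 ρ),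
      ∃ t : ℕ → ℝ, Tendsto t atTop atTop ∧
        Tendsto (fun k => (W X i b S γ (t k)).re / Real.log (t k)) atTop (𝓝 ρ)] := by
  open Pool.Agent.N41.RM in
  have hi : (2 * i + 1) + 1 = 2 * (i + 1) := by ring
  have h1 := temp hα
  have h2 := real hα
  have hm2 : (((i + 1 : ℕ)) : ℝ) + 1 / 2 = (i : ℝ) + 3 / 2 := by push_cast; ring
  have hedge : (((2 * i + 1 : ℕ) : ℝ) / 2) + 1 = (i : ℝ) + 3 / 2 := by push_cast; ring
  have hc : (((i + 1 : ℕ)) : ℂ) = (i : ℂ) + 1 := by push_cast; rfl
  -- `F` is meromorphic at all real points from the centre on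
  have hmer : ∀ x : ℝ, (i : ℝ) + 1 ≤ x → MeromorphicAt F (x : ℂ) := by
    intro x hx
    by_cases hx2 : x ≤ (i : ℝ) + 3 / 2
    · exact hF.1 x hx hx2
    · push Not at hx2
      have ha := (Pool.Agent.R409.RA.LProd_analytic (i := 2 * i + 1) (s := (x : ℂ)) h1 (by
        rw [hedge, Complex.ofReal_re]
        exact hx2)).1
      refine (ha.congr ?_).meromorphicAt
      have ho : IsOpen {z : ℂ | (i : ℝ) + 3 / 2 < z.re} :=
        isOpen_lt continuous_const Complex.continuous_re
      filter_upwards [ho.mem_nhds (show (i : ℝ) + 3 / 2 < (x : ℂ).re by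
        rwa [Complex.ofReal_re])] with z hz
      exact (hF.2 z hz).symm
  have hhalf : ∀ x : ℝ, (i : ℝ) + 1 ≤ x → (((2 * i + 1 : ℕ) : ℝ) / 2) < (x : ℂ).re := by
    intro x hx
    rw [Complex.ofReal_re, half_eq]
    linarith
  have hord : ∀ x : ℝ, (i : ℝ) + 1 ≤ x → meromorphicOrderAt (fun s => F s * badFactors S α s) (x : ℂ) =
      meromorphicOrderAt F (x : ℂ) := fun x hx =>
    Pool.Agent.N41.RM.order_bad (i := 2 * i + 1) h1 (hhalf x hx) (hmer x hx)
  obtain ⟨r, l, e1, e2, e3, e4, -⟩ := Pool.Agent.N41.RM.nf_law hi (temp_ext hα) (real_ext hα)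
    (F := fun s => F s * badFactors S α s)
    (fun x hx hx2 => by
      have hx' : (i : ℝ) + 1 ≤ x := by push_cast at hx; exact hx
      exact (hmer x hx').mul
        (Pool.Agent.N41.RM.bad_analytic (S := S) (α := α) (x : ℂ)).meromorphicAt)
    (fun s hs => by
      rw [hm2] at hs
      have h3 := Pool.Agent.N41.RM.prod_bad (S := S) hi h1 h2 (s := s) (by rw [hedge]; exact hs)
      rw [← h3]
      show F s * badFactors S α s = _
      rw [hF.2 s hs]
      rfl) hγ
  have hcx : (((i : ℝ) + 1 : ℝ) : ℂ) = (i : ℂ) + 1 := by push_cast; rfl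
  have hord0 := hord ((i : ℝ) + 1) le_rfl
  rw [hcx] at hord0
  rw [hc, hord0] at e1
  rw [hc] at e2
  have hex : Pool.Agent.N41.RM.excess (fun s => F s * badFactors S α s) ((i + 1 : ℕ) : ℝ) =
      excess F i := by
    unfold Pool.Agent.N41.RM.excess excess
    have h3 : ((i + 1 : ℕ) : ℝ) = (i : ℝ) + 1 := by push_cast; rfl
    rw [h3]
    refine finsum_mem_congr rfl fun x hx => ?_
    rw [hord x (le_of_lt hx)]
  rw [hex] at e4
  have hL : Lam γ = Pool.Agent.W187.UR.Lam γ := rfl
  have hW : ∀ T, W X i b S γ T = Pool.Agent.N41.RM.rmn Pool.Agent.N41.RM.qv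
      (Pool.Agent.N41.RM.av (i + 1) (Pool.Agent.N41.RM.ext S α)) γ T := by
    intro T
    unfold W Pool.Agent.N41.RM.rmn
    exact tsum_congr fun x => term_eq hα γ T x
  have hlaw : (fun T : ℝ => W X i b S γ T - (r * (Real.log T - Lam γ) - Real.log |l| +
        Real.pi * excess F i * Complex.I)) =O[atTop] (fun T : ℝ => 1 / T) := by
    refine e4.congr_left fun T => ?_
    rw [hW, hL]
  have hre : Tendsto (fun T : ℝ => (W X i b S γ T).re / Real.log T) atTop (𝓝 r) := by
    refine Pool.Agent.N41.RM.re_of_law (Λ := Lam γ)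
      (c := -Real.log |l| + Real.pi * excess F i * Complex.I) ?_
    refine hlaw.congr_left fun T => ?_
    ring
  refine ⟨fun T hT => ?_, ⟨r, l, e1, e2, e3, hlaw⟩, fun ρ => ?_⟩
  · have E := Pool.Agent.N41.RM.en_nf hi (temp_ext hα) (real_ext hα)
    refine (E.rterm_summable γ hT).congr fun x => ?_
    rw [term_eq hα]
  tfae_have 1 → 2 := by
    intro h3
    rw [e1] at h3
    have h5 : r = ρ := by exact_mod_cast h3
    subst h5
    exact hre
  tfae_have 2 → 3 := by
    intro h3
    exact ⟨fun k => (k : ℝ), tendsto_natCast_atTop_atTop, h3.comp tendsto_natCast_atTop_atTop⟩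
  tfae_have 3 → 1 := by
    rintro ⟨t, ht, h3⟩
    have h4 := tendsto_nhds_unique h3 (hre.comp ht)
    have h5 : ρ = r := by exact_mod_cast h4
    rw [e1, h5]
  tfae_finish

end Pool.Agent.Results.MP_6dc9d1_nt.OrderFromPointCounts
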