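import Pool.Agent.N41.RM.Pts

/-!
# The leading-term formula of Birch and Swinnerton-Dyer for abelian varieties as a limit of products of
the numbers of points, without any hypothesis on the zeros

Let `A` be an abelian variety of dimension `g` over a number field `K`, for example over `ℚ`, `S` a finite
set of primes containing the primes of bad reduction, and `L(A, s) = ∏_{v ∉ S} P_v(q_v^{-s})⁻¹` as in the
problem.  We assume that `L(A, s)` has a continuation `F` along the segment `[1, 3/2]`, meromorphic at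
its points.  An asymptotic formula `∏_{q_v ≤ T} #A(k_v) / q_v^g ~ C (log T)^r` implies the Riemann
hypothesis for `L(A, s)` (Goldfeld, Kuo and Murty, Conrad), so that it is much stronger than the
formula for the leading term.  Here are products of the same kind for which the formula holds
without any hypothesis.  Let `k_{v,e}` be the extension of degree `e` of the residue field `k_v`,
`ω(t) = exp(iγt) / Γ(1 + t)` with `γ > π/2`, and

`W_γ(T) = ∑_{v ∉ S} ∑_{e ≥ 1} log (#A(k_{v,e}) / q_v^{g e}) (1/e) ∑_{e = k n} μ(k) ω(n log q_v / T)`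

an absolutely convergent series (for fixed `v` the weight of `e = 1` tends to `1` and all the other
weights tend to `0` as `T → ∞`).  Then, with `Λ_γ = ∫_0^∞ (e^{-t} - ω(t)) dt / t`,

`W_γ(T) = r (log T - Λ_γ) - log |L^*(A)| + π e i + O(1/T)`,

where `r = ord_{s=1} L(A, s)`, `L^*(A)` is the leading coefficient and `e` the number of the real zeros
minus the number of the real poles `> 1`.  Hence for every integer `ρ` (as the rank of `A(K)`) and
every real `B ≠ 0` (as `#Ш R_A V_∞ V_bad / (#A(ℚ)_tors #A'(ℚ)_tors)`) we have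
`lim_{s → 1} (s - 1)^{-ρ} L(A, s) = B` if and only if the products `exp W_γ(T)`, divided by `T^ρ`, tend to
`e^{-ρΛ_γ} / B`, if and only if they do so along one sequence `T_n → ∞`.
-/

set_option autoImplicit false

open scoped Classical

namespace Pool.Agent.Results.MP_dfae13_nt.RotatedPointProducts

open NumberField IsDedekindDomain Filter Topology Polynomial
open scoped ArithmeticFunction.Moebius
open Pool.Agent.TH958.BV (cone)

section defs

variable {K : Type} [Field K] [NumberField K] {n : ℕ}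

/-- `α_1, …, α_{2g}` are the eigenvalues of the geometric Frobenius at the prime `v` on the first
cohomology of the abelian variety `A` of dimension `g` defined by the homogeneous polynomials `X`: they
are the zeros of a polynomial with integral coefficients, of absolute value `q_v^{1/2}`, and for every
finite extension `κ` of the residue field of `v`, of degree `e`, the number of the points of `A` with
coordinates in `κ` is `∏ (1 - α_j^e)`.  (`cone` is the number of the nonzero solutions of the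
homogeneous equations, which is `#κ - 1` times the number of points.)  By Weil this holds at all primes
of good reduction. -/
def IsFrobenius (X : Set (MvPolynomial (Fin n) (𝓞 K))) (g : ℕ) (v : HeightOneSpectrum (𝓞 K))
    (α : Fin (2 * g) → ℂ) : Prop :=
  (∃ P : ℤ[X], P.map (Int.castRingHom ℂ) = ∏ j, (Polynomial.X - Polynomial.C (α j))) ∧
    (∀ j, ‖α j‖ = √(Ideal.absNorm v.asIdeal)) ∧
    ∀ (κ : Type) [Field κ] [Finite κ] (φ : 𝓞 K →+* κ) (e : ℕ), RingHom.ker φ = v.asIdeal →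
      Nat.card κ = Ideal.absNorm v.asIdeal ^ e →
      (cone X φ : ℂ) = ((Ideal.absNorm v.asIdeal : ℂ) ^ e - 1) * ∏ j, (1 - α j ^ e)

/-- The L-function `L(A, s) = ∏_{v ∉ S} ∏_j (1 - α_{v,j} q_v^{-s})⁻¹`. -/
noncomputable def LFun {N : ℕ} (S : Finset (HeightOneSpectrum (𝓞 K)))
    (α : HeightOneSpectrum (𝓞 K) → Fin N → ℂ) (s : ℂ) : ℂ :=
  ∏' v : HeightOneSpectrum (𝓞 K), if v ∈ S then 1 else
    ∏ j, (1 - α v j * (Ideal.absNorm v.asIdeal : ℂ) ^ (-s))⁻¹

/-- `F` is a continuation of `L(A, s)` from `Re s > 3/2` along the real axis to `s = 1`, meromorphic at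
all points of the segment `[1, 3/2]`. -/
def IsContinuation {N : ℕ} (S : Finset (HeightOneSpectrum (𝓞 K)))
    (α : HeightOneSpectrum (𝓞 K) → Fin N → ℂ) (F : ℂ → ℂ) : Prop :=
  (∀ x : ℝ, 1 ≤ x → x ≤ 3 / 2 → MeromorphicAt F (x : ℂ)) ∧
    ∀ s : ℂ, 3 / 2 < s.re → F s = LFun S α s

/-- The residue field of the prime `v`. -/
noncomputable instance residueField (v : HeightOneSpectrum (𝓞 K)) : Field (𝓞 K ⧸ v.asIdeal) :=
  Pool.Agent.R409.RA.fieldQuot v

/-- The number of the points of the projective scheme defined by `X` with coordinates in the extension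
of degree `e` of the residue field of `v`: the number of the nonzero solutions `u` of the homogeneous
equations in the algebraic closure of the residue field with `u_j^{q_v^e} = u_j` for all `j`, divided by
`q_v^e - 1`. -/
noncomputable def points (X : Set (MvPolynomial (Fin n) (𝓞 K))) (v : HeightOneSpectrum (𝓞 K))
    (e : ℕ) : ℝ :=
  (Nat.card {u : Fin n → AlgebraicClosure (𝓞 K ⧸ v.asIdeal) // u ≠ 0 ∧
    (∀ j, u j ^ (Ideal.absNorm v.asIdeal ^ e) = u j) ∧
    ∀ f ∈ X, MvPolynomial.eval₂ ((algebraMap (𝓞 K ⧸ v.asIdeal)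
      (AlgebraicClosure (𝓞 K ⧸ v.asIdeal))).comp (Ideal.Quotient.mk v.asIdeal)) u f = 0} : ℝ) /
    ((Ideal.absNorm v.asIdeal : ℝ) ^ e - 1)

/-- The weight `ω(t) = exp(iγt) / Γ(1 + t)`. -/
noncomputable def om (γ t : ℝ) : ℂ :=
  Complex.exp ((γ * t : ℝ) * Complex.I) / (Real.Gamma (1 + t) : ℂ)

/-- The term of `W_γ(T)` for the prime `v = x.1` and the degree `e = x.2 + 1`:
`log (#A(k_{v,e}) / q_v^{g e}) (1/e) ∑_{e = k n} μ(k) ω(n log q_v / T)`, and `0` if `v ∈ S`. -/
noncomputable def ptTerm (X : Set (MvPolynomial (Fin n) (𝓞 K))) (g : ℕ)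
    (S : Finset (HeightOneSpectrum (𝓞 K))) (γ T : ℝ) (x : HeightOneSpectrum (𝓞 K) × ℕ) : ℂ :=
  if x.1 ∈ S then 0 else
    (Real.log (points X x.1 (x.2 + 1) / (Ideal.absNorm x.1.asIdeal : ℝ) ^ (g * (x.2 + 1))) : ℂ) /
      (x.2 + 1) * ∑ y ∈ (x.2 + 1).divisorsAntidiagonal,
        ((μ y.1 : ℤ) : ℂ) * om γ (y.2 * Real.log (Ideal.absNorm x.1.asIdeal : ℝ) / T)

/-- `W_γ(T)`. -/
noncomputable def ptSum (X : Set (MvPolynomial (Fin n) (𝓞 K))) (g : ℕ)
    (S : Finset (HeightOneSpectrum (𝓞 K))) (γ T : ℝ) : ℂ :=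
  ∑' x : HeightOneSpectrum (𝓞 K) × ℕ, ptTerm X g S γ T x

/-- `Λ_γ = ∫_0^∞ (e^{-t} - e^{iγt} / Γ(1 + t)) dt / t`. -/
noncomputable def Lam (γ : ℝ) : ℂ := ∫ t in Set.Ioi (0 : ℝ),
  (Complex.exp (-(t : ℂ)) - Complex.exp ((γ * t : ℝ) * Complex.I) * ((Real.Gamma (1 + t))⁻¹ : ℝ)) / t

/-- The number of the real zeros `> 1` of `F` minus the number of its real poles `> 1`, with
multiplicities (they are in `(1, 3/2]`). -/
noncomputable def excess (F : ℂ → ℂ) : ℤ :=
  ∑ᶠ σ ∈ Set.Ioi (1 : ℝ), (meromorphicOrderAt F (σ : ℂ)).untop₀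

/-- `exp W_γ(T) / T^ρ`. -/
noncomputable def quot (X : Set (MvPolynomial (Fin n) (𝓞 K))) (g : ℕ)
    (S : Finset (HeightOneSpectrum (𝓞 K))) (γ : ℝ) (ρ : ℤ) (T : ℝ) : ℂ :=
  Complex.exp (ptSum X g S γ T) / (T : ℂ) ^ ρ

end defs

section bridge

variable {K : Type} [Field K] [NumberField K] {n g : ℕ}
  {X : Set (MvPolynomial (Fin n) (𝓞 K))} {S : Finset (HeightOneSpectrum (𝓞 K))}
  {α : HeightOneSpectrum (𝓞 K) → Fin (2 * g) → ℂ}

/-- the parameters, completed by zeros at the primes in `S` -/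
noncomputable def ext (S : Finset (HeightOneSpectrum (𝓞 K)))
    (α : HeightOneSpectrum (𝓞 K) → Fin (2 * g) → ℂ) (v : HeightOneSpectrum (𝓞 K))
    (j : Fin (2 * g)) : ℂ := if v ∈ S then 0 else α v j

theorem temp (hα : ∀ v ∉ S, IsFrobenius X g v (α v)) (v : HeightOneSpectrum (𝓞 K))
    (j : Fin (2 * g)) :
    ‖ext S α v j‖ ≤ (Ideal.absNorm v.asIdeal : ℝ) ^ (((1 : ℕ) : ℝ) / 2) := by
  have h1 : (Ideal.absNorm v.asIdeal : ℝ) ^ (((1 : ℕ) : ℝ) / 2) = √(Ideal.absNorm v.asIdeal) := by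
    rw [Real.sqrt_eq_rpow]
    norm_num
  rw [h1]
  unfold ext
  split_ifs with hv
  · rw [norm_zero]
    positivity
  · exact ((hα v hv).2.1 j).le

theorem real (hα : ∀ v ∉ S, IsFrobenius X g v (α v)) (v : HeightOneSpectrum (𝓞 K)) (k : ℕ) :
    (∑ j, ext S α v j ^ (k + 1)).im = 0 := by
  unfold ext
  split_ifs with hv
  · simp
  · exact Pool.Agent.N41.RM.psum_real_of_stable
      (Pool.Agent.R409.RA.conj_stable (hα v hv).1) _

theorem LFun_eq (s : ℂ) : LFun S α s = ∏' v : HeightOneSpectrum (𝓞 K),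
    ∏ j, (1 - ext S α v j * (Ideal.absNorm v.asIdeal : ℂ) ^ (-s))⁻¹ := by
  unfold LFun ext
  refine tprod_congr fun v => ?_
  split_ifs with hv
  · simp
  · rfl

theorem points_eq (hα : ∀ v ∉ S, IsFrobenius X g v (α v)) {v : HeightOneSpectrum (𝓞 K)}
    (hv : v ∉ S) {e : ℕ} (he : 1 ≤ e) : ((points X v e : ℝ) : ℂ) = ∏ j, (1 - α v j ^ e) := by
  obtain ⟨κ, i1, i2, φ, h1, h2, h3⟩ := Pool.Agent.N41.RM.fcone_eq X v he
  have h4 := (hα v hv).2.2 κ φ e h1 h2
  have hq : (2 : ℝ) ≤ Ideal.absNorm v.asIdeal := Pool.Agent.R409.RA.two_le v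
  have h5 : points X v e = (Pool.Agent.N41.RM.fcone X v e : ℝ) /
      ((Ideal.absNorm v.asIdeal : ℝ) ^ e - 1) := rfl
  have h6 : ((Ideal.absNorm v.asIdeal : ℂ) ^ e - 1) ≠ 0 := by
    have h7 : (1 : ℝ) < (Ideal.absNorm v.asIdeal : ℝ) ^ e :=
      one_lt_pow₀ (by linarith) (by omega)
    have h8 : ((Ideal.absNorm v.asIdeal : ℝ) ^ e - 1) ≠ 0 := by linarith
    exact_mod_cast h8
  rw [h5, h3]
  push_cast
  rw [h4]
  field_simp

theorem term_eq (hα : ∀ v ∉ S, IsFrobenius X g v (α v)) (γ T : ℝ)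
    (x : HeightOneSpectrum (𝓞 K) × ℕ) :
    ptTerm X g S γ T x = Pool.Agent.N41.RM.pterm Pool.Agent.N41.RM.qv
      (Pool.Agent.N41.RM.av 1 (ext S α)) γ T x := by
  have hq : (2 : ℝ) ≤ Ideal.absNorm x.1.asIdeal := Pool.Agent.R409.RA.two_le x.1
  unfold ptTerm Pool.Agent.N41.RM.pterm
  split_ifs with hv
  · have h1 : ∀ j, Pool.Agent.N41.RM.av 1 (ext S α) x.1 j = 0 := by
      intro j
      unfold Pool.Agent.N41.RM.av ext
      rw [if_pos hv, zero_div]
    simp [h1]
  · have h0 : 0 ≤ points X x.1 (x.2 + 1) := by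
      unfold points
      refine div_nonneg (Nat.cast_nonneg _) ?_
      have := one_le_pow₀ (n := x.2 + 1) (by linarith : (1 : ℝ) ≤ Ideal.absNorm x.1.asIdeal)
      linarith
    have h1 := Pool.Agent.N41.RM.log_points_pow (g := g) (q := (Ideal.absNorm x.1.asIdeal : ℝ))
      (α := α x.1) (by linarith) (hα x.1 hv).2.1
      (Pool.Agent.R409.RA.conj_stable (hα x.1 hv).1) (e := x.2 + 1) (by omega) h0
      (points_eq hα hv (by omega))
    have h2 : ∀ j, Pool.Agent.N41.RM.av 1 (ext S α) x.1 j =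
        α x.1 j / ((Ideal.absNorm x.1.asIdeal : ℝ) : ℂ) := by
      intro j
      unfold Pool.Agent.N41.RM.av ext
      rw [if_neg hv, pow_one, Complex.ofReal_natCast]
    have h3 : (∑ y ∈ (x.2 + 1).divisorsAntidiagonal,
        ((μ y.1 : ℤ) : ℂ) * om γ (y.2 * Real.log (Ideal.absNorm x.1.asIdeal : ℝ) / T)) =
        Pool.Agent.N41.RM.mb (fun n => Pool.Agent.N41.RM.omt γ T
          (n * Real.log (Pool.Agent.N41.RM.qv x.1))) (x.2 + 1) := by
      unfold Pool.Agent.N41.RM.mb
      refine Finset.sum_congr rfl fun y _ => ?_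
      unfold om Pool.Agent.N41.RM.omt Pool.Agent.N41.RM.qv
      rw [div_eq_mul_inv (Complex.exp _)]
      push_cast
      rfl
    rw [h1, h3]
    simp_rw [h2]
    push_cast
    rfl

theorem sum_eq (hα : ∀ v ∉ S, IsFrobenius X g v (α v)) (γ : ℝ) {T : ℝ} (hT : 0 < T) :
    ptSum X g S γ T = Pool.Agent.N41.RM.rmn Pool.Agent.N41.RM.qv
      (Pool.Agent.N41.RM.av 1 (ext S α)) γ T := by
  have E := Pool.Agent.N41.RM.en_nf (m := 1) (i := 1) rfl (temp hα) (real hα)
  rw [← E.tsum_pterm γ hT]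
  unfold ptSum
  exact tsum_congr fun x => term_eq hα γ T x

end bridge

/-- **The leading-term formula as a limit of products of the numbers of points.**  Let `A` be the abelian
variety of dimension `g` over the number field `K` defined by the homogeneous polynomials `X`, `S` a
finite set of primes which contains the primes of bad reduction, `α_v` the eigenvalues of Frobenius
for `v ∉ S`, `F` a continuation of `L(A, s) = ∏_{v ∉ S} P_v(q_v^{-s})⁻¹` along the segment `[1, 3/2]` and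
`γ > π/2`.  Then

* `W_γ(T)` converges absolutely for `T > 0`;
* `F` has an order `r` and a real leading coefficient `l ≠ 0` at `1`, and
  `W_γ(T) = r (log T - Λ_γ) - log |l| + π e i + O(1/T)`;
* for every integer `ρ` and every real `B ≠ 0` the following are equivalent:
  `lim_{s → 1} (s - 1)^{-ρ} F(s) = B`; `F` has order `ρ` and leading coefficient `B` at `1`;
  `exp W_γ(T) / T^ρ → e^{-ρΛ_γ} / B` as `T → ∞`; the same for one sequence `T_n → ∞`. -/
theorem result (K : Type) [Field K] [NumberField K] (n g : ℕ)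
    (X : Set (MvPolynomial (Fin n) (𝓞 K))) (S : Finset (HeightOneSpectrum (𝓞 K)))
    (α : HeightOneSpectrum (𝓞 K) → Fin (2 * g) → ℂ) (hα : ∀ v ∉ S, IsFrobenius X g v (α v))
    (F : ℂ → ℂ) (hF : IsContinuation S α F) (γ : ℝ) (hγ : Real.pi / 2 < γ) :
    (∀ T : ℝ, 0 < T → Summable fun x => ‖ptTerm X g S γ T x‖) ∧
    (∃ (r : ℤ) (l : ℝ), meromorphicOrderAt F 1 = r ∧ meromorphicTrailingCoeffAt F 1 = l ∧ l ≠ 0 ∧
      (fun T : ℝ => ptSum X g S γ T - (r * (Real.log T - Lam γ) - Real.log |l| +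
        Real.pi * excess F * Complex.I)) =O[atTop] (fun T : ℝ => 1 / T)) ∧
    ∀ (ρ : ℤ) (B : ℝ), B ≠ 0 → List.TFAE [
      Tendsto (fun s : ℂ => (s - 1) ^ (-ρ) * F s) (𝓝[≠] 1) (𝓝 (B : ℂ)),
      meromorphicOrderAt F 1 = ρ ∧ meromorphicTrailingCoeffAt F 1 = B,
      Tendsto (quot X g S γ ρ) atTop (𝓝 (Complex.exp (-(ρ * Lam γ)) / B)),
      ∃ t : ℕ → ℝ, Tendsto t atTop atTop ∧
        Tendsto (fun k => quot X g S γ ρ (t k)) atTop (𝓝 (Complex.exp (-(ρ * Lam γ)) / B))] := by
  have h1 := temp hα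
  have h2 := real hα
  have hmer : MeromorphicAt F 1 := by
    have := hF.1 1 le_rfl (by norm_num)
    rwa [Complex.ofReal_one] at this
  obtain ⟨r, l, e1, e2, e3, e4, e5⟩ := Pool.Agent.N41.RM.nf_law (m := 1) (i := 1) rfl h1 h2 (F := F)
    (fun x hx hx2 => hF.1 x (by simpa using hx) (by
      have : ((1 : ℕ) : ℝ) + 1 / 2 = 3 / 2 := by norm_num
      linarith))
    (fun s hs => by
      rw [← LFun_eq]
      refine hF.2 s ?_
      have : ((1 : ℕ) : ℝ) + 1 / 2 = 3 / 2 := by norm_num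
      linarith) hγ
  rw [Nat.cast_one] at e1 e2
  have hL : Lam γ = Pool.Agent.W187.UR.Lam γ := rfl
  have hex : excess F = Pool.Agent.N41.RM.excess F ((1 : ℕ) : ℝ) := by
    unfold excess Pool.Agent.N41.RM.excess
    rw [Nat.cast_one]
  have e6 : Tendsto (fun T : ℝ => Complex.exp (ptSum X g S γ T) / (T : ℂ) ^ r) atTop
      (𝓝 (Complex.exp (-(r * Pool.Agent.W187.UR.Lam γ)) / l)) := by
    refine e5.congr' ?_
    filter_upwards [eventually_gt_atTop 0] with T hT
    rw [sum_eq hα γ hT]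
  refine ⟨fun T hT => ?_, ⟨r, l, e1, e2, e3, ?_⟩, fun ρ B hB => ?_⟩
  · have E := Pool.Agent.N41.RM.en_nf (m := 1) (i := 1) rfl h1 h2
    refine (E.pterm_summable γ hT).congr fun x => ?_
    rw [term_eq hα]
  · refine e4.congr' ?_ EventuallyEq.rfl
    filter_upwards [eventually_gt_atTop 0] with T hT
    rw [sum_eq hα γ hT, hL, hex]
  · have hBc : (B : ℂ) ≠ 0 := by exact_mod_cast hB
    tfae_have 1 → 2 := fun h3 => Pool.Agent.N41.RM.order_of_lim hmer hBc h3
    tfae_have 2 → 1 := fun h3 => Pool.Agent.N41.RM.lim_of_order hmer h3.1 h3.2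
    tfae_have 2 → 3 := by
      rintro ⟨h3, h4⟩
      rw [e1] at h3
      rw [e2] at h4
      have h5 : r = ρ := by exact_mod_cast h3
      have h6 : l = B := by exact_mod_cast h4
      subst h5
      subst h6
      exact e6
    tfae_have 3 → 4 := by
      intro h3
      exact ⟨fun k => (k : ℝ), tendsto_natCast_atTop_atTop, h3.comp tendsto_natCast_atTop_atTop⟩
    tfae_have 4 → 2 := by
      rintro ⟨t, ht, h3⟩
      obtain ⟨h4, h5⟩ := Pool.Agent.N41.RM.iff_abs e3 e6 ρ hB ht h3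
      rw [e1, e2, h4, h5]
      exact ⟨rfl, rfl⟩
    tfae_finish

end Pool.Agent.Results.MP_dfae13_nt.RotatedPointProducts
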