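import Pool.Agent.N41.RM.Sch

/-!
# Tate's form of the Birch–Swinnerton-Dyer conjecture over finitely generated fields in terms of the
numbers of points of two schemes over the finite fields

`K` is a finitely generated field, `C / K` a smooth projective geometrically connected curve of genus
`g`, with a model `𝒳 → 𝒴`, `𝒴 = Spec R[1/N]`, `R` a ring of finite type over `ℤ` (of characteristic zero or
`p`).  The function `Φ₁(s) = ∏_y ∏_j (1 - α_{y,j} q_y^{-s})⁻¹` is the product over the closed points `y` of `𝒴`.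
We assume that it has a continuation along the real axis up to a point `D ≥ 1` (`D = dim 𝒴` in the
problem), meromorphic at the real points.  For a power `Q = p^m` of a prime number let `#𝒳(F_Q)` and
`#𝒴(F_Q)` be the numbers of the points over the field with `Q` elements, and for `γ > π/2` put

`W_γ(T) = ∑_p ∑_{m ≥ 1} (#𝒳(F_{p^m}) - (p^m + 1) #𝒴(F_{p^m})) / (m p^{mD}) ·`
`         exp(iγ m log p / T) / Γ(1 + m log p / T)`,

an absolutely convergent series for every `T > 0`.  Then, without any hypothesis on the zeros of `Φ₁`,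

`W_γ(T) = r (log T - Λ_γ) - log |l| + π e i + O(1/T)`,

where `r` is the order of `Φ₁` at `D`, `l` its leading coefficient and `e` the number of the real zeros
minus the number of the real poles `> D`.  So for every integer `ρ` (as the rank of
`Pic⁰_{C/K}(K)`) the equality `ord_{s=D} Φ₁ = ρ` is equivalent to `Re W_γ(T) / log T → ρ`, and to
`Re W_γ(T_k) / log T_k → ρ` for one sequence `T_k → ∞`.
-/

set_option autoImplicit false

namespace Pool.Agent.Results.MP_9faec4_nt.OrderFromPointCounts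

open Filter Topology
open Pool.Agent.TH958.BV (cone)

section defs

variable {R : Type} [CommRing R] {n g : ℕ}

/-- The number `q_y` of elements of the residue field of the closed point `y` of `Spec R`. -/
noncomputable def norm (y : MaximalSpectrum R) : ℕ := Nat.card (R ⧸ y.asIdeal)

/-- The fibre at the closed point `y` of the projective scheme defined by the homogeneous polynomials
`X` over `R` is a curve of genus `g`, and `α_1, …, α_{2g}` are the eigenvalues of Frobenius on its first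
cohomology: they are the zeros of a polynomial with integral coefficients, of absolute value
`q_y^{1/2}`, and for every finite extension `κ` of the residue field, of degree `e`, the number of the
points of the fibre with coordinates in `κ` is `q_y^e + 1 - ∑ α_j^e`.  (`cone` is the number of the
nonzero solutions of the homogeneous equations, which is `#κ - 1` times the number of points.) -/
def IsFrobenius (X : Set (MvPolynomial (Fin n) R)) (y : MaximalSpectrum R)
    (α : Fin (2 * g) → ℂ) : Prop :=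
  (∃ P : Polynomial ℤ, P.map (Int.castRingHom ℂ) = ∏ j, (Polynomial.X - Polynomial.C (α j))) ∧
    (∀ j, ‖α j‖ = √(norm y)) ∧
    ∀ (κ : Type) [Field κ] [Finite κ] (φ : R →+* κ) (e : ℕ), RingHom.ker φ = y.asIdeal →
      Nat.card κ = norm y ^ e →
      (cone X φ : ℂ) = ((norm y : ℂ) ^ e - 1) * ((norm y : ℂ) ^ e + 1 - ∑ j, α j ^ e)

/-- `F` is a continuation of `Φ₁` along the real axis up to the point `D`, meromorphic at all real points
`x ≥ D`; for large `Re s` it is given by the Euler product over the closed points of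
`𝒴 = Spec R[1/N]`. -/
def IsContinuation (N : R) (D : ℕ) (α : MaximalSpectrum R → Fin (2 * g) → ℂ) (F : ℂ → ℂ) : Prop :=
  (∀ x : ℝ, (D : ℝ) ≤ x → MeromorphicAt F (x : ℂ)) ∧
    ∃ σ₁ : ℝ, ∀ s : ℂ, σ₁ < s.re →
      HasProd (fun y : {y : MaximalSpectrum R // N ∉ y.asIdeal} =>
        ∏ j, (1 - α y.1 j * (norm y.1 : ℂ) ^ (-s))⁻¹) (F s)

instance primeFact (p : Nat.Primes) : Fact (p : ℕ).Prime := ⟨p.2⟩

/-- The number of the points of `𝒴 = Spec R[1/N]` over the field with `p^m` elements. -/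
noncomputable def pointsY (N : R) (p : Nat.Primes) (m : ℕ) : ℕ :=
  Nat.card {φ : R →+* GaloisField p m // φ N ≠ 0}

/-- The number of the points over the field with `p^m` elements of the projective scheme `𝒳` over
`𝒴 = Spec R[1/N]` defined by the homogeneous polynomials `X`. -/
noncomputable def pointsX (X : Set (MvPolynomial (Fin n) R)) (N : R) (p : Nat.Primes)
    (m : ℕ) : ℝ :=
  (Nat.card {x : (R →+* GaloisField p m) × (Fin n → GaloisField p m) //
    x.1 N ≠ 0 ∧ x.2 ≠ 0 ∧ ∀ f ∈ X, MvPolynomial.eval₂ x.1 x.2 f = 0} : ℝ) / ((p : ℝ) ^ m - 1)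

/-- The term of `W_γ(T)` for `Q = p^m`, `p = c.1`, `m = c.2 + 1`. -/
noncomputable def term (X : Set (MvPolynomial (Fin n) R)) (N : R) (D : ℕ) (γ T : ℝ)
    (c : Nat.Primes × ℕ) : ℂ :=
  ((pointsX X N c.1 (c.2 + 1) - (((c.1 : ℕ) : ℝ) ^ (c.2 + 1) + 1) * pointsY N c.1 (c.2 + 1)) /
      ((c.2 + 1) * (((c.1 : ℕ) : ℝ) ^ (c.2 + 1)) ^ D) : ℝ) *
    (Complex.exp ((γ * ((c.2 + 1) * Real.log (c.1 : ℕ)) / T : ℝ) * Complex.I) /
      (Real.Gamma (1 + (c.2 + 1) * Real.log (c.1 : ℕ) / T) : ℂ))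

/-- `W_γ(T)`. -/
noncomputable def W (X : Set (MvPolynomial (Fin n) R)) (N : R) (D : ℕ) (γ T : ℝ) : ℂ :=
  ∑' c : Nat.Primes × ℕ, term X N D γ T c

/-- `Λ_γ = ∫_0^∞ (e^{-t} - e^{iγt} / Γ(1 + t)) dt / t`. -/
noncomputable def Lam (γ : ℝ) : ℂ := ∫ t in Set.Ioi (0 : ℝ),
  (Complex.exp (-(t : ℂ)) - Complex.exp ((γ * t : ℝ) * Complex.I) * ((Real.Gamma (1 + t))⁻¹ : ℝ)) / t

/-- The number of the real zeros `> D` of `F` minus the number of its real poles `> D`, with
multiplicities. -/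
noncomputable def excess (F : ℂ → ℂ) (D : ℝ) : ℤ :=
  ∑ᶠ σ ∈ Set.Ioi D, (meromorphicOrderAt F (σ : ℂ)).untop₀

end defs

section bridge

open Pool.Agent.N41.RM
open Pool.Agent.TH958.An (Pt Res qy ptOf pk qy_eq)
open Pool.Agent.W187.UR (cmean)

variable {R : Type} [CommRing R] [hR : Algebra.FiniteType ℤ R] {n g : ℕ}
  {X : Set (MvPolynomial (Fin n) R)} {N : R} {D : ℕ} {α : MaximalSpectrum R → Fin (2 * g) → ℂ}

/-- the norms -/
noncomputable def qn (N : R) (y : YP N) : ℝ := (qy y.1 : ℝ)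

/-- the normalised parameters -/
noncomputable def an (N : R) (D : ℕ) (α : MaximalSpectrum R → Fin (2 * g) → ℂ) (y : YP N)
    (j : Fin (2 * g)) : ℂ := α y.1 j / (qy y.1 : ℂ) ^ D

theorem two_le_qn (y : YP N) : (2 : ℝ) ≤ qn N y := by
  unfold qn
  exact_mod_cast two_le_qy y.1

theorem em (hD : 1 ≤ D) (hα : ∀ y : MaximalSpectrum R, N ∉ y.asIdeal → IsFrobenius X y (α y)) :
    ∃ A : ℝ, EM A (qn N) (an N D α) := by
  obtain ⟨A, hA, hs⟩ := summable_pt R
  refine ⟨A, hA, two_le_qn, fun σ hσ => (hs σ hσ).comp_injective Subtype.val_injective,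
    fun y j => ?_, fun y k => ?_⟩
  · have h1 := (hα y.1 y.2).2.1 j
    have h2 : (norm y.1 : ℝ) = qn N y := rfl
    have hq := two_le_qn y
    have hq0 : 0 < qn N y := by linarith
    unfold an
    rw [norm_div, norm_pow, Complex.norm_natCast, h1, h2]
    change √(qn N y) / qn N y ^ D ≤ _
    rw [div_le_iff₀ (by positivity), Real.sqrt_eq_rpow, ← Real.rpow_natCast, ← Real.rpow_add hq0]
    refine Real.rpow_le_rpow_of_exponent_le (by linarith) ?_
    have : (1 : ℝ) ≤ D := by exact_mod_cast hD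
    linarith
  · have h1 := psum_real_of_stable (Pool.Agent.R409.RA.conj_stable (hα y.1 y.2).1) (k + 1)
    have h2 : ∑ j, an N D α y j ^ (k + 1) = (∑ j, α y.1 j ^ (k + 1)) *
        ((((qy y.1 : ℝ) ^ D) ^ (k + 1))⁻¹ : ℝ) := by
      unfold an
      rw [Finset.sum_mul]
      refine Finset.sum_congr rfl fun j _ => ?_
      rw [div_pow]
      push_cast
      rfl
    rw [h2, Complex.im_mul_ofReal, h1, zero_mul]

/-- the weights -/
noncomputable def wtt (γ T : ℝ) (c : Nat.Primes × ℕ) : ℂ :=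
  Complex.exp ((γ * ((c.2 + 1) * Real.log (c.1 : ℕ)) / T : ℝ) * Complex.I) /
      (Real.Gamma (1 + (c.2 + 1) * Real.log (c.1 : ℕ) / T) : ℂ)

theorem rterm_prx (γ T : ℝ) (c : Nat.Primes × ℕ) (x : YP N × ℕ) (hx : prx N x = c) :
    rterm (qn N) (an N D α) γ T x =
      (((pk x.1.1).2 + 1 : ℕ) : ℂ) * (-∑ j, α x.1.1 j ^ (x.2 + 1)) *
        (1 / ((c.2 + 1) * ((((c.1 : ℕ) : ℂ) ^ (c.2 + 1)) ^ D)) * wtt γ T c) := by
  obtain ⟨h1, h2⟩ := (prx_iff x c).1 hx
  have h3 : (qy x.1.1 : ℂ) = ((c.1 : ℕ) : ℂ) ^ ((pk x.1.1).2 + 1) := by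
    rw [qy_eq, h1]
    push_cast
    rfl
  have h4 : Real.log (qn N x.1) = ((pk x.1.1).2 + 1 : ℕ) * Real.log (c.1 : ℕ) := by
    unfold qn
    rw [qy_eq, h1]
    push_cast
    rw [Real.log_pow]
    push_cast
    rfl
  have h5 : fq (qn N) x = (c.2 + 1) * Real.log (c.1 : ℕ) := by
    unfold fq
    rw [h4, ← mul_assoc]
    congr 1
    have : ((((pk x.1.1).2 + 1) * (x.2 + 1) : ℕ) : ℝ) = ((c.2 + 1 : ℕ) : ℝ) := by rw [h2]
    push_cast at this ⊢
    linarith
  have h6 : ∑ j, an N D α x.1 j ^ (x.2 + 1) =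
      (∑ j, α x.1.1 j ^ (x.2 + 1)) / (((c.1 : ℕ) : ℂ) ^ (c.2 + 1)) ^ D := by
    unfold an
    rw [Finset.sum_div]
    refine Finset.sum_congr rfl fun j _ => ?_
    rw [div_pow, h3, ← pow_mul, ← pow_mul, ← pow_mul, ← h2]
    congr 2
    ring
  have hp : (((c.1 : ℕ) : ℂ)) ≠ 0 := Nat.cast_ne_zero.2 c.1.2.ne_zero
  have hd : ((((pk x.1.1).2 : ℂ) + 1)) ≠ 0 := Nat.cast_add_one_ne_zero _
  have hk : (((x.2 : ℂ) + 1)) ≠ 0 := Nat.cast_add_one_ne_zero _
  have hm : ((c.2 : ℂ) + 1) = (((pk x.1.1).2 : ℂ) + 1) * ((x.2 : ℂ) + 1) := by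
    have : ((((pk x.1.1).2 + 1) * (x.2 + 1) : ℕ) : ℂ) = ((c.2 + 1 : ℕ) : ℂ) := by rw [h2]
    push_cast at this
    exact this.symm
  unfold rterm wtt
  rw [h5, h6, hm]
  have h7 : (γ * ((c.2 + 1) * Real.log (c.1 : ℕ)) / T : ℝ) =
      γ * ((c.2 + 1) * Real.log (c.1 : ℕ) / T) := by ring
  rw [h7]
  push_cast
  field_simp

theorem card_gal (c : Nat.Primes × ℕ) [Fintype (GaloisField c.1 (c.2 + 1))] :
    Fintype.card (GaloisField c.1 (c.2 + 1)) = (c.1 : ℕ) ^ (c.2 + 1) := by
  rw [← Nat.card_eq_fintype_card]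
  exact GaloisField.card _ _ (by omega)

theorem count_eq (hα : ∀ y : MaximalSpectrum R, N ∉ y.asIdeal → IsFrobenius X y (α y))
    (c : Nat.Primes × ℕ) [Fintype {x : YP N × ℕ // prx N x = c}] :
    (((pointsX X N c.1 (c.2 + 1) - (((c.1 : ℕ) : ℝ) ^ (c.2 + 1) + 1) *
      pointsY N c.1 (c.2 + 1) : ℝ)) : ℂ) =
      ∑ x : {x : YP N × ℕ // prx N x = c},
        (((pk x.1.1.1).2 + 1 : ℕ) : ℂ) * (-∑ j, α x.1.1.1 j ^ (x.1.2 + 1)) := by
  classical
  have : Fintype (GaloisField c.1 (c.2 + 1)) := Fintype.ofFinite _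
  have : Fintype {φ : R →+* GaloisField c.1 (c.2 + 1) // φ N ≠ 0} := Fintype.ofFinite _
  have hF := card_gal c
  have hQ : (2 : ℝ) ≤ ((c.1 : ℕ) : ℝ) ^ (c.2 + 1) := by
    have h1 : (2 : ℝ) ≤ ((c.1 : ℕ) : ℝ) := by exact_mod_cast c.1.2.two_le
    calc (2 : ℝ) ≤ ((c.1 : ℕ) : ℝ) := h1
      _ ≤ _ := le_self_pow₀ (by linarith) (by omega)
  set Q : ℂ := ((c.1 : ℕ) : ℂ) ^ (c.2 + 1) with hQd
  have hQ1 : Q - 1 ≠ 0 := by
    have h1 : (((c.1 : ℕ) : ℝ) ^ (c.2 + 1) - 1) ≠ 0 := by linarith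
    rw [hQd]
    exact_mod_cast h1
  -- the local counts
  have hloc : ∀ φ : {φ : R →+* GaloisField c.1 (c.2 + 1) // φ N ≠ 0},
      (cone X φ.1 : ℂ) = (Q - 1) * (Q + 1 -
        ∑ j, α (regr c hF φ).1.1.1.1 j ^ ((regr c hF φ).1.1.2 + 1)) := by
    intro φ
    have hx := (prx_iff _ _).1 (regr c hF φ).1.2
    have h1 : (regr c hF φ).1.1.1.1 = ptOf φ.1 := rfl
    have h2 := (hα (regr c hF φ).1.1.1.1 (regr c hF φ).1.1.1.2).2.2 (GaloisField c.1 (c.2 + 1))
      φ.1 ((regr c hF φ).1.1.2 + 1) rfl (by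
        rw [Nat.card_eq_fintype_card, hF]
        change _ = qy (regr c hF φ).1.1.1.1 ^ _
        rw [qy_eq, hx.1, ← pow_mul, hx.2])
    have h3 : ((norm (regr c hF φ).1.1.1.1 : ℂ)) ^ ((regr c hF φ).1.1.2 + 1) = Q := by
      change (qy (regr c hF φ).1.1.1.1 : ℂ) ^ _ = _
      rw [qy_eq, hx.1]
      push_cast
      rw [← pow_mul, hx.2]
    rw [h3] at h2
    exact h2
  have hY : (pointsY N c.1 (c.2 + 1) : ℂ) =
      ∑ _φ : {φ : R →+* GaloisField c.1 (c.2 + 1) // φ N ≠ 0}, (1 : ℂ) := by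
    unfold pointsY
    rw [Finset.sum_const, Finset.card_univ, Nat.card_eq_fintype_card, nsmul_eq_mul, mul_one]
  have hX : ((pointsX X N c.1 (c.2 + 1) : ℝ) : ℂ) =
      ∑ φ : {φ : R →+* GaloisField c.1 (c.2 + 1) // φ N ≠ 0}, (cone X φ.1 : ℂ) / (Q - 1) := by
    unfold pointsX
    rw [← Finset.sum_div]
    push_cast
    congr 1
    have e : {x : (R →+* GaloisField c.1 (c.2 + 1)) × (Fin n → GaloisField c.1 (c.2 + 1)) //
        x.1 N ≠ 0 ∧ x.2 ≠ 0 ∧ ∀ f ∈ X, MvPolynomial.eval₂ x.1 x.2 f = 0} ≃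
        Σ φ : {φ : R →+* GaloisField c.1 (c.2 + 1) // φ N ≠ 0},
          {u : Fin n → GaloisField c.1 (c.2 + 1) // u ≠ 0 ∧
            ∀ f ∈ X, MvPolynomial.eval₂ φ.1 u f = 0} :=
      { toFun := fun x => ⟨⟨x.1.1, x.2.1⟩, ⟨x.1.2, x.2.2⟩⟩
        invFun := fun w => ⟨(w.1.1, w.2.1), w.1.2, w.2.2⟩
        left_inv := fun x => rfl
        right_inv := fun w => rfl }
    rw [Nat.card_congr e, Nat.card_sigma]
    push_cast
    rfl
  push_cast
  rw [hX, hY]
  have hsum := sum_regr (N₀ := N) c hF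
    (fun x => -∑ j, α x.1.1 j ^ (x.2 + 1))
    (fun φ => -∑ j, α (regr c hF φ).1.1.1.1 j ^ ((regr c hF φ).1.1.2 + 1)) (fun φ => rfl)
  push_cast at hsum
  rw [Finset.mul_sum, ← Finset.sum_sub_distrib, ← hsum]
  refine Finset.sum_congr rfl fun φ _ => ?_
  rw [hloc φ]
  have : ((c.1 : ℕ) : ℂ) ^ (c.2 + 1) = Q := rfl
  rw [this]
  field_simp
  ring

theorem term_eq (hα : ∀ y : MaximalSpectrum R, N ∉ y.asIdeal → IsFrobenius X y (α y))
    (γ T : ℝ) (c : Nat.Primes × ℕ) :
    term X N D γ T c = ∑' x : {x : YP N × ℕ // prx N x = c},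
      rterm (qn N) (an N D α) γ T x.1 := by
  have : Fintype {x : YP N × ℕ // prx N x = c} := Fintype.ofFinite _
  rw [tsum_fintype]
  have h1 := count_eq hα c
  have h2 : ∑ x : {x : YP N × ℕ // prx N x = c}, rterm (qn N) (an N D α) γ T x.1 =
      (∑ x : {x : YP N × ℕ // prx N x = c},
        (((pk x.1.1.1).2 + 1 : ℕ) : ℂ) * (-∑ j, α x.1.1.1 j ^ (x.1.2 + 1))) *
        (1 / ((c.2 + 1) * ((((c.1 : ℕ) : ℂ) ^ (c.2 + 1)) ^ D)) * wtt γ T c) := by
    rw [Finset.sum_mul]
    exact Finset.sum_congr rfl fun x _ => rterm_prx γ T c x.1 x.2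
  rw [h2, ← h1]
  unfold term wtt
  push_cast
  ring

theorem W_eq {A : ℝ} (E : EM A (qn N) (an N D α))
    (hα : ∀ y : MaximalSpectrum R, N ∉ y.asIdeal → IsFrobenius X y (α y)) (γ : ℝ) {T : ℝ}
    (hT : 0 < T) : (Summable fun c => ‖term X N D γ T c‖) ∧
      W X N D γ T = rmn (qn N) (an N D α) γ T := by
  have h1 := E.rterm_summable γ hT
  have h2 : Summable (fun w : Σ c, {x : YP N × ℕ // prx N x = c} =>
      ‖rterm (qn N) (an N D α) γ T w.2.1‖) :=
    ((Equiv.sigmaFiberEquiv (prx N)).summable_iff (f := fun x =>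
      ‖rterm (qn N) (an N D α) γ T x‖)).2 h1
  have h3 : Summable (fun w : Σ c, {x : YP N × ℕ // prx N x = c} =>
      rterm (qn N) (an N D α) γ T w.2.1) := h2.of_norm
  refine ⟨?_, ?_⟩
  · refine Summable.of_nonneg_of_le (fun c => norm_nonneg _) (fun c => ?_) h2.sigma
    rw [term_eq hα]
    exact norm_tsum_le_tsum_norm (h2.sigma_factor c)
  · unfold W rmn
    rw [← (Equiv.sigmaFiberEquiv (prx N)).tsum_eq (fun x => rterm (qn N) (an N D α) γ T x)]
    change _ = ∑' w : Σ c, {x : YP N × ℕ // prx N x = c}, rterm (qn N) (an N D α) γ T w.2.1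
    rw [h3.tsum_sigma]
    exact tsum_congr fun c => term_eq hα γ T c

end bridge

/-- **The order of `Φ₁` at `dim 𝒴` from the numbers of points.**  Let `R` be a commutative ring of finite
type over `ℤ`, `N ∈ R`, `X` a set of homogeneous polynomials over `R` which defines a family of curves of
genus `g` over `𝒴 = Spec R[1/N]`, with the eigenvalues `α_y` of Frobenius at the closed points `y`, `D ≥ 1`
an integer (as `dim 𝒴`), `F` a continuation of `Φ₁` along the real axis up to `D`, and `γ > π/2`.  Then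

* `W_γ(T)` converges absolutely for `T > 0`;
* `F` has an order `r` and a real leading coefficient `l ≠ 0` at `D`, and
  `W_γ(T) = r (log T - Λ_γ) - log |l| + π e i + O(1/T)`;
* for every integer `ρ` (as the rank of the Picard variety of the generic fibre) the assertions
  `ord_{s=D} F = ρ`, `Re W_γ(T) / log T → ρ` as `T → ∞`, and `Re W_γ(T_k) / log T_k → ρ` for one sequence
  `T_k → ∞`, are equivalent. -/
theorem result (R : Type) [CommRing R] [Algebra.FiniteType ℤ R] (N : R) (n g D : ℕ) (hD : 1 ≤ D)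
    (X : Set (MvPolynomial (Fin n) R)) (α : MaximalSpectrum R → Fin (2 * g) → ℂ)
    (hα : ∀ y : MaximalSpectrum R, N ∉ y.asIdeal → IsFrobenius X y (α y)) (F : ℂ → ℂ)
    (hF : IsContinuation N D α F) (γ : ℝ) (hγ : Real.pi / 2 < γ) :
    (∀ T : ℝ, 0 < T → Summable fun c => ‖term X N D γ T c‖) ∧
    (∃ (r : ℤ) (l : ℝ), meromorphicOrderAt F D = r ∧ meromorphicTrailingCoeffAt F D = l ∧ l ≠ 0 ∧
      (fun T : ℝ => W X N D γ T - (r * (Real.log T - Lam γ) - Real.log |l| +
        Real.pi * excess F D * Complex.I)) =O[atTop] (fun T : ℝ => 1 / T)) ∧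
    ∀ ρ : ℤ, List.TFAE [
      meromorphicOrderAt F D = ρ,
      Tendsto (fun T : ℝ => (W X N D γ T).re / Real.log T) atTop (𝓝 ρ),
      ∃ t : ℕ → ℝ, Tendsto t atTop atTop ∧
        Tendsto (fun k => (W X N D γ (t k)).re / Real.log (t k)) atTop (𝓝 ρ)] := by
  obtain ⟨A, E⟩ := em hD hα
  obtain ⟨hmer, σ₁, hprod⟩ := hF
  have : Countable (Pool.Agent.N41.RM.YP N) := Subtype.countable
  obtain ⟨r, l, e1, e2, e3, e4, -⟩ := E.law (Φ := fun w => F (D + w)) (fun x hx => by
    have h1 : MeromorphicAt F ((D : ℂ) + (x : ℂ)) := by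
      have := hmer (D + x) (by linarith)
      push_cast at this
      exact this
    exact h1.comp_analyticAt (g := fun w : ℂ => (D : ℂ) + w) (by fun_prop)) (σ₁ := σ₁)
    (fun w hw => by
      have h1 := hprod (D + w) (by
        rw [Complex.add_re, Complex.natCast_re]
        have : (0 : ℝ) ≤ D := D.cast_nonneg
        linarith)
      have h2 : (fun y : Pool.Agent.N41.RM.YP N => ∏ j, (1 - an N D α y j * (qn N y : ℂ) ^ (-w))⁻¹) =
          fun y : {y : MaximalSpectrum R // N ∉ y.asIdeal} =>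
            ∏ j, (1 - α y.1 j * (norm y.1 : ℂ) ^ (-(D + w)))⁻¹ := by
        funext y
        refine Finset.prod_congr rfl fun j _ => ?_
        have hq0 : (norm y.1 : ℂ) ≠ 0 := by
          have h3 := Pool.Agent.N41.RM.two_le_qy y.1
          have h4 : norm y.1 = Pool.Agent.TH958.An.qy y.1 := rfl
          exact Nat.cast_ne_zero.2 (by omega)
        have h5 : an N D α y j = α y.1 j / (norm y.1 : ℂ) ^ D := rfl
        have h6 : ((qn N y : ℝ) : ℂ) = (norm y.1 : ℂ) := by
          unfold qn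
          rw [Complex.ofReal_natCast]
          rfl
        rw [h5, h6, neg_add, Complex.cpow_add _ _ hq0, Complex.cpow_neg _ (D : ℂ),
          Complex.cpow_natCast]
        congr 2
        field_simp
      rw [h2]
      exact h1) hγ
  rw [Pool.Agent.N41.RM.order_sh, add_zero] at e1
  rw [Pool.Agent.N41.RM.coeff_sh] at e2
  have e5 := Pool.Agent.N41.RM.excess_sh F D
  push_cast at e5
  rw [e5] at e4
  have hL : Lam γ = Pool.Agent.W187.UR.Lam γ := rfl
  have hlaw : (fun T : ℝ => W X N D γ T - (r * (Real.log T - Lam γ) - Real.log |l| +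
      Real.pi * excess F D * Complex.I)) =O[atTop] (fun T : ℝ => 1 / T) := by
    refine e4.congr' ?_ EventuallyEq.rfl
    filter_upwards [eventually_gt_atTop 0] with T hT
    rw [(W_eq E hα γ hT).2, hL]
    rfl
  -- the real part
  have hre : Tendsto (fun T : ℝ => (W X N D γ T).re / Real.log T) atTop (𝓝 r) := by
    have h1 : Tendsto (fun T : ℝ => W X N D γ T - (r * (Real.log T - Lam γ) - Real.log |l| +
      Real.pi * excess F D * Complex.I)) atTop (𝓝 0) := by
      refine hlaw.trans_tendsto ?_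
      exact tendsto_const_nhds.div_atTop tendsto_id
    set K : ℂ := r * (-Lam γ) - Real.log |l| + Real.pi * excess F D * Complex.I with hK
    have h2 : Tendsto (fun T : ℝ => ((W X N D γ T - (r * (Real.log T - Lam γ) - Real.log |l| +
      Real.pi * excess F D * Complex.I)).re + K.re) / Real.log T + r) atTop (𝓝 (0 + r)) := by
      refine Tendsto.add_const _ ?_
      have h3 := (Complex.continuous_re.tendsto 0).comp h1
      exact (h3.add_const K.re).div_atTop Real.tendsto_log_atTop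
    rw [zero_add] at h2
    refine h2.congr' ?_
    filter_upwards [eventually_gt_atTop 1] with T hT
    have hlog : Real.log T ≠ 0 := (Real.log_pos hT).ne'
    rw [div_add' _ _ _ hlog, ← Complex.add_re]
    congr 1
    have h4 : W X N D γ T - (r * (Real.log T - Lam γ) - Real.log |l| +
      Real.pi * excess F D * Complex.I) + K = W X N D γ T - ((r * Real.log T : ℝ) : ℂ) := by
      rw [hK]
      push_cast
      ring
    rw [h4, Complex.sub_re, Complex.ofReal_re]
    ring
  refine ⟨fun T hT => (W_eq E hα γ hT).1, ⟨r, l, e1, e2, e3, hlaw⟩, fun ρ => ?_⟩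
  tfae_have 1 → 2 := by
    intro h3
    rw [e1] at h3
    have h5 : r = ρ := by exact_mod_cast h3
    subst h5
    exact hre
  tfae_have 2 → 3 := by
    intro h3
    exact ⟨fun k => (k : ℝ), tendsto_natCast_atTop_atTop, h3.comp tendsto_natCast_atTop_atTop⟩
  tfae_have 3 → 1 := by
    rintro ⟨t, ht, h3⟩
    have h4 := tendsto_nhds_unique h3 (hre.comp ht)
    have h5 : ρ = r := by exact_mod_cast h4
    rw [e1, h5]
  tfae_finish

end Pool.Agent.Results.MP_9faec4_nt.OrderFromPointCounts
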